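import Mathlib
import Pool.Agent.Helper23.TwoReg.Unital

/-!
# Disproof of the conjecture on `k`-uniform hypergraphs without 2-regular subgraphs on `2k` vertices

For `k = 3` and infinitely many `n` there is an `n`-vertex 3-uniform hypergraph with no 2-regular
subgraph on `2 * 3` vertices and with `n.choose 2` edges, which is more than
`(n - 1).choose (3 - 1) + (n - 1) / 3`.

Construction: all triples inside the blocks of an O'Nan-free `2-(n, 5, 1)` design, obtained by
composing Hermitian unitals of orders `4, 4 ^ 3, 4 ^ 9, ...`; `n = 4 ^ (3 ^ j) + 1`.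
-/

namespace Pool.Agent.Results.MP_bc9e10_co.KThree

/-- `F` is 2-regular: every vertex of `V(F)`, the union of the edges of `F`, lies in exactly two
edges of `F`. -/
def IsTwoRegular {V : Type*} [DecidableEq V] (F : Finset (Finset V)) : Prop :=
  ∀ v ∈ F.biUnion id, (F.filter (fun e => v ∈ e)).card = 2

/-- For infinitely many `n` there is a 3-uniform hypergraph `H` on `n` vertices, with no 2-regular
subgraph on `2 * 3` vertices, that has exactly `n.choose 2` edges, which is more than the
conjectured maximum `(n - 1).choose (3 - 1) + (n - 1) / 3`. -/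
theorem result : {n : ℕ | ∃ H : Finset (Finset (Fin n)),
    (∀ e ∈ H, e.card = 3) ∧
    (∀ F ⊆ H, IsTwoRegular F → (F.biUnion id).card ≠ 2 * 3) ∧
    H.card = n.choose 2 ∧
    (n - 1).choose (3 - 1) + (n - 1) / 3 < H.card}.Infinite := by
  have hinj : Function.Injective (fun j : ℕ => 2 ^ (2 * 3 ^ j) + 1) := by
    intro i j h
    have h1 : 2 ^ (2 * 3 ^ i) = 2 ^ (2 * 3 ^ j) := by simpa using h
    have h2 := Nat.pow_right_injective (le_refl 2) h1
    have h3 : 3 ^ i = 3 ^ j := by simpa using h2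
    exact Nat.pow_right_injective (by norm_num) h3
  refine (Set.infinite_range_of_injective hinj).mono ?_
  rintro n ⟨j, rfl⟩
  obtain ⟨H, h3, hg, hc⟩ := Helper23.TwoReg.hasGood_tower j
  refine ⟨H, h3, hg, hc, ?_⟩
  rw [hc]
  have hpos : 0 < 2 ^ (2 * 3 ^ j) := by positivity
  change (2 ^ (2 * 3 ^ j)).choose 2 + 2 ^ (2 * 3 ^ j) / 3 < (2 ^ (2 * 3 ^ j) + 1).choose 2
  rw [Nat.choose_succ_succ' _ 1, Nat.choose_one_right]
  change (2 ^ (2 * 3 ^ j)).choose 2 + 2 ^ (2 * 3 ^ j) / 3 <
    2 ^ (2 * 3 ^ j) + (2 ^ (2 * 3 ^ j)).choose 2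
  omega

end Pool.Agent.Results.MP_bc9e10_co.KThree
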